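import Pool.Agent.MP_81f5b7_pr.H66.Spec

/-! The last crossing. -/

namespace Pool.Agent.MP_81f5b7_pr.H66

open Finset
open scoped Classical

namespace CROSS

theorem sum_sg (a b c₀ : C3) (f : C3 → ℝ) :
    ∑ c, sg a b (some c₀) c * f c = f (-a - c₀) - f (-b - c₀) := by
  simp only [sg, Option.elim, ind, sub_mul, sum_sub_distrib, ite_mul, one_mul, zero_mul,
    sum_ite_eq', mem_univ, if_true]

theorem sum_erase (a b : C3) (h : a ≠ b) (f : C3 → ℕ) :
    ∑ c ∈ univ.erase a, f c = f b + f (-a - b) := by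
  have e : (univ : Finset C3).erase a = {b, -a - b} := by
    revert a b
    decide
  have n : b ≠ -a - b := by
    revert a b
    decide
  rw [e, sum_pair n]

theorem tri : ∀ a b c₀ : C3, a ≠ b → c₀ = a ∨ c₀ = b ∨ c₀ = -a - b := by decide

theorem id1 : ∀ a : C3, -a - a = a := by decide

theorem id2 : ∀ a b : C3, -b - a = -a - b := by decide

theorem id3 : ∀ a b : C3, -a - (-a - b) = b := by decide

theorem id4 : ∀ a b : C3, -b - (-a - b) = a := by decide

theorem ne1 : ∀ a b : C3, a ≠ b → a ≠ -a - b := by decide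

theorem ne2 : ∀ a b : C3, a ≠ b → b ≠ -a - b := by decide

variable {col : ℕ → Option C3} {U X M L : ℕ → C3 → ℝ} {N : ℕ → C3 → ℕ} {q : ℝ}

theorem weighted (q1 : q < 1) (hU : ∀ i c, U (i + 1) c + X i c = U i c)
    (hX : ∀ i c, col i = none ∨ col i = some c → X i c = 0)
    (hM : ∀ i c, M i c = if col i = none ∨ col i = some c then 0 else U i c)
    (N0 : ∀ c, N 0 c = 0) (hN : ∀ i c, N (i + 1) c = N i c + if col i = some c then 1 else 0)
    (c : C3) (j : ℕ) : (1 - q)⁻¹ ^ (∑ c' ∈ univ.erase c, N j c') * U j c = U 0 c -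
      ∑ i ∈ range j, (1 - q)⁻¹ ^ (∑ c' ∈ univ.erase c, N i c' + 1) * (X i c - q * M i c) := by
  induction j with
  | zero => simp [N0]
  | succ j ih =>
    rw [sum_range_succ, ← sub_sub, ← ih, hM, show U (j + 1) c = U j c - X j c by
      linarith [hU j c]]
    simp only [hN, sum_add_distrib]
    by_cases h : col j = none ∨ col j = some c
    · have e : ∑ c' ∈ univ.erase c, (if col j = some c' then 1 else 0 : ℕ) = 0 := by
        refine sum_eq_zero fun c' hc' => if_neg fun h' => ?_
        rcases h with h | h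
        · simp [h] at h'
        · exact (mem_erase.1 hc').1 (Option.some.inj (h'.symm.trans h))
      rw [e, if_pos h, hX j c h]
      simp
    · obtain ⟨c₀, h₀⟩ := Option.ne_none_iff_exists'.1 (not_or.1 h).1
      have n : c₀ ≠ c := fun e => (not_or.1 h).2 (e ▸ h₀)
      have e : ∑ c' ∈ univ.erase c, (if col j = some c' then 1 else 0 : ℕ) = 1 := by
        simp [h₀, n]
      have r : (1 - q) ≠ 0 := by linarith
      rw [e, if_neg h, pow_succ]
      field_simp
      ring

theorem close {r A B ua ub u₀ v₀ x : ℝ} {m n : ℕ} (r0 : 0 < r) (r1 : r ≤ 1) (hmn : m ≤ n)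
    (hb : 0 ≤ ub) (ea : r⁻¹ ^ m * ua = u₀ - A) (eb : r⁻¹ ^ n * ub = v₀ - B)
    (hA : |A| ≤ x) (hB : |B| ≤ x) : ub - ua ≤ |u₀ - v₀| + 2 * x := by
  have i1 : 1 ≤ r⁻¹ := (one_le_inv₀ r0).2 r1
  have p1 : 1 ≤ r⁻¹ ^ m := one_le_pow₀ i1
  have p2 : r⁻¹ ^ m * ub ≤ r⁻¹ ^ n * ub :=
    mul_le_mul_of_nonneg_right (pow_le_pow_right₀ i1 hmn) hb
  have p3 : r⁻¹ ^ m * (ub - ua) ≤ |u₀ - v₀| + 2 * x := by
    have := neg_abs_le (u₀ - v₀)
    have := abs_le.1 hA
    have := abs_le.1 hB
    rw [mul_sub]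
    linarith
  by_cases h : ub - ua ≤ 0
  · have := abs_nonneg (u₀ - v₀)
    have := (abs_nonneg A).trans hA
    linarith
  · exact (le_mul_of_one_le_left (not_le.1 h).le p1).trans p3

theorem incr {a b : C3} (ab : a ≠ b)
    (hM : ∀ i c, M i c = if col i = none ∨ col i = some c then 0 else U i c)
    (hN : ∀ i c, N (i + 1) c = N i c + if col i = some c then 1 else 0)
    (hL : ∀ i c, L (i + 1) c = L i c + (col i).elim 0 fun c₀ => X i (-c - c₀)) (i : ℕ) :
    L (i + 1) a - L (i + 1) b = L i a - L i b +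
      ∑ c, sg a b (col i) c * (X i c - q * M i c) +
      q * (-U i (-a - b) * ((N (i + 1) a - N i a : ℝ) - (N (i + 1) b - N i b : ℝ)) +
        (U i b - U i a) * (N (i + 1) (-a - b) - N i (-a - b) : ℝ)) := by
  have n1 := ne1 a b ab
  have n2 := ne2 a b ab
  rw [hL, hL, hN, hN, hN]
  rcases h : col i with _ | c₀
  · simp [sg]
  · rw [sum_sg, hM, hM, h]
    rcases tri a b c₀ ab with rfl | rfl | rfl
    · simp [id1, id2 c₀ b, ab, n1]
      ring
    · simp [id1, ab.symm, n2]
      ring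
    · simp [id3, id4, n1.symm, n2.symm]
      ring

end CROSS

open CROSS in
theorem rowCROSS : SCROSS := by
  intro k col U X M L N q x y a b ab q0 q1 U0 X0 hU hX hM N0 hN hL h1 h2 h3
  have x0 : 0 ≤ x := (abs_nonneg _).trans (h1 0 (Nat.zero_le k))
  obtain ⟨R, eR⟩ : ∃ R : ℝ, R = |U 0 a - U 0 b| + 2 * x := ⟨_, rfl⟩
  have R0 : 0 ≤ R := by rw [eR]; positivity
  obtain ⟨m, em⟩ : ∃ m : ℕ → ℝ,
    m = fun j => ∑ i ∈ range j, ∑ c, sg a b (col i) c * (X i c - q * M i c) := ⟨_, rfl⟩
  have hm : ∀ j ≤ k, |m j| ≤ x := by rw [em]; exact h1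
  have cl : ∀ j ≤ k, N j b ≤ N j a → U j b - U j a ≤ R := by
    intro j hj h
    rw [eR]
    refine close (by linarith) (by linarith) ?_ (U0 j b) (weighted q1 hU hX hM N0 hN a j)
      (weighted q1 hU hX hM N0 hN b j) (h2 a j hj) (h2 b j hj)
    rw [sum_erase a b ab, sum_erase b a ab.symm, id2 a b]
    omega
  have key : ∀ j ≤ k, N j b ≤ N j a → ∃ t ≤ j, L j a - L j b ≤ y + (m j - m t) -
      q * (U j (-a - b) * (N j a - N j b : ℝ)) + q * (R * N j (-a - b)) := by
    have base : ∀ j ≤ k, N j b ≤ N j a → N j a ≤ N j b → ∃ t ≤ j, L j a - L j b ≤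
        y + (m j - m t) - q * (U j (-a - b) * (N j a - N j b : ℝ)) + q * (R * N j (-a - b)) := by
      intro j hj e1 e2
      refine ⟨j, le_rfl, ?_⟩
      have := h3 j hj e2
      have p : 0 ≤ q * (R * N j (-a - b)) := by positivity
      rw [le_antisymm e1 e2]
      linarith
    intro j
    induction j with
    | zero => exact fun hj e => base 0 hj e (by rw [N0, N0])
    | succ j ih =>
      intro hj e
      by_cases e' : N (j + 1) a ≤ N (j + 1) b
      · exact base _ hj e e'
      · have e1 : N j b ≤ N j a := by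
          have a1 := hN j a
          have a2 := hN j b
          split_ifs at a1 a2 <;> omega
        obtain ⟨t, ht, it⟩ := ih (by omega) e1
        refine ⟨t, by omega, ?_⟩
        have s1 := incr (q := q) ab hM hN hL j
        have s2 : m (j + 1) = m j + ∑ c, sg a b (col j) c * (X j c - q * M j c) := by
          rw [em]; exact sum_range_succ _ _
        have s3 : (0 : ℝ) ≤ N (j + 1) (-a - b) - N j (-a - b) := by
          rw [sub_nonneg, Nat.cast_le, hN]; omega
        have s4 : (0 : ℝ) ≤ N (j + 1) a - N (j + 1) b := by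
          rw [sub_nonneg, Nat.cast_le]; exact e
        have s5 := mul_le_mul_of_nonneg_left
          (mul_le_mul_of_nonneg_right (cl j (by omega) e1) s3) q0.le
        have s6 : U (j + 1) (-a - b) ≤ U j (-a - b) := by linarith [hU j (-a - b), X0 j (-a - b)]
        have s7 := mul_le_mul_of_nonneg_left (mul_le_mul_of_nonneg_right s6 s4) q0.le
        rw [s1, s2]
        linarith
  rw [← eR]
  have p : 0 ≤ q * (R * N k (-a - b)) := by positivity
  by_cases e : N k a ≤ N k b
  · have := h3 k le_rfl e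
    linarith
  · obtain ⟨t, ht, it⟩ := key k le_rfl (not_le.1 e).le
    have s4 : (0 : ℝ) ≤ N k a - N k b := by
      rw [sub_nonneg, Nat.cast_le]; exact (not_le.1 e).le
    have s5 := mul_nonneg q0.le (mul_nonneg (U0 k (-a - b)) s4)
    have := abs_le.1 (hm k le_rfl)
    have := abs_le.1 (hm t ht)
    linarith

end Pool.Agent.MP_81f5b7_pr.H66
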